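import Pool.Agent.H87.SubExp

/-!
# A continuous homomorphism of Fréchet–Lie groups that is not smooth

Lie groups are modelled on real Hausdorff locally convex spaces, and smoothness is taken in the
sense of Bastiani.  We construct an abelian Lie group `H`, modelled on a Fréchet space `E` (complete
and metrizable), and a continuous homomorphism from `H` to the additive group of the real numbers
which is not of class `C^1`.

Here `E` is the space of the real sequences `x` of subexponential growth, with the seminorms
`p_k(x) = sup_n |x_n| e^{-n/(k+1)}`; the group `H` is the set `E`, with the identity as a global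
chart, and with the coordinatewise multiplication
`x * y = x √(1+y²) + y √(1+x²) = sinh (arsinh x + arsinh y)`; the homomorphism is
`x ↦ ∑_n arsinh (x_n) / (n+1)^3`.
-/

open Filter Topology Set
open scoped ContDiff

noncomputable section

namespace Pool.Agent.Results.MP_ed087a_al.FrechetNotSmooth

universe u v

/-- `CkOn F k E f U`: the map `f : E → F` is of class `C^k` on the (open) set `U ⊆ E` in the sense
of Bastiani.  Class `C^0` means continuous on `U`; class `C^(k+1)` means that `f` is continuous on
`U`, that the directional derivatives `df(x,v) = lim_{t → 0} (f(x+tv) - f(x))/t` exist for all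
`x ∈ U` and `v ∈ E`, and that `df` is of class `C^k` on `U × E`. -/
def CkOn (F : Type v) [AddCommGroup F] [Module ℝ F] [TopologicalSpace F] :
    ℕ → ∀ (E : Type u) [AddCommGroup E] [Module ℝ E] [TopologicalSpace E],
      (E → F) → Set E → Prop
  | 0, _, _, _, _, f, U => ContinuousOn f U
  | k + 1, E, _, _, _, f, U => ContinuousOn f U ∧ ∃ df : E × E → F,
      (∀ x ∈ U, ∀ v : E,
        Tendsto (fun t : ℝ => t⁻¹ • (f (x + t • v) - f x)) (𝓝[≠] 0) (𝓝 (df (x, v)))) ∧
      CkOn F k (E × E) df (U ×ˢ Set.univ)

/-- A Lie group modelled on a real Hausdorff locally convex space `E`: a group `G` with a Hausdorff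
topology and an atlas of charts onto open subsets of `E`, such that the transition maps are smooth,
and multiplication and inversion are continuous and smooth (in all charts). -/
structure LieGrp : Type 1 where
  /-- the model space -/
  E : Type
  [addCommGroupE : AddCommGroup E]
  [moduleE : Module ℝ E]
  [topE : TopologicalSpace E]
  [topAddGroupE : IsTopologicalAddGroup E]
  [contSMulE : ContinuousSMul ℝ E]
  [locConvE : LocallyConvexSpace ℝ E]
  [t2E : T2Space E]
  /-- the underlying group -/
  G : Type
  [groupG : Group G]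
  [topG : TopologicalSpace G]
  [t2G : T2Space G]
  [charts : ChartedSpace E G]
  smooth_transition : ∀ e ∈ atlas E G, ∀ e' ∈ atlas E G, ∀ k : ℕ,
    CkOn E k E (fun x => e' (e.symm x)) {x | x ∈ e.target ∧ e.symm x ∈ e'.source}
  continuous_mul' : Continuous fun p : G × G => p.1 * p.2
  continuous_inv' : Continuous fun g : G => g⁻¹
  smooth_mul : ∀ e₁ ∈ atlas E G, ∀ e₂ ∈ atlas E G, ∀ e₃ ∈ atlas E G, ∀ k : ℕ,
    CkOn E k (E × E) (fun p => e₃ (e₁.symm p.1 * e₂.symm p.2))
      {p | p.1 ∈ e₁.target ∧ p.2 ∈ e₂.target ∧ e₁.symm p.1 * e₂.symm p.2 ∈ e₃.source}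
  smooth_inv : ∀ e ∈ atlas E G, ∀ e' ∈ atlas E G, ∀ k : ℕ,
    CkOn E k E (fun x => e' (e.symm x)⁻¹) {x | x ∈ e.target ∧ (e.symm x)⁻¹ ∈ e'.source}

attribute [instance] LieGrp.addCommGroupE LieGrp.moduleE LieGrp.topE LieGrp.topAddGroupE
  LieGrp.contSMulE LieGrp.locConvE LieGrp.t2E LieGrp.groupG LieGrp.topG LieGrp.t2G LieGrp.charts

/-- The map `α` between Lie groups is of class `C^k`: it is continuous, and of class `C^k` in all
charts. -/
def IsCk (k : ℕ) (H G : LieGrp) (α : H.G → G.G) : Prop :=
  Continuous α ∧ ∀ e ∈ atlas H.E H.G, ∀ e' ∈ atlas G.E G.G,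
    CkOn G.E k H.E (fun x => e' (α (e.symm x))) {x | x ∈ e.target ∧ α (e.symm x) ∈ e'.source}

/-- A Lie group is a Fréchet–Lie group if its (locally convex) model space is metrizable and
complete. -/
def IsFrechetLie (G : LieGrp) : Prop :=
  TopologicalSpace.MetrizableSpace G.E ∧
    @CompleteSpace G.E (IsTopologicalAddGroup.rightUniformSpace G.E)

/-! ### Lie groups with a single global chart -/

/-- A group law on a locally convex space `E` with smooth operations gives a Lie group, with the
identity of `E` as its only chart. -/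
@[reducible] def ofGlobal (E : Type) [AddCommGroup E] [Module ℝ E] [TopologicalSpace E]
    [IsTopologicalAddGroup E] [ContinuousSMul ℝ E] [LocallyConvexSpace ℝ E] [T2Space E]
    (grp : Group E)
    (hid : ∀ k, CkOn E k E (fun x => x) Set.univ)
    (hmul : ∀ k, CkOn E k (E × E) (fun p => grp.mul p.1 p.2) Set.univ)
    (hinv : ∀ k, CkOn E k E grp.inv Set.univ) : LieGrp where
  E := E
  G := E
  groupG := grp
  charts := chartedSpaceSelf E
  smooth_transition := by
    rintro e he e' he' k
    rw [chartedSpaceSelf_atlas] at he he'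
    subst he; subst he'
    have : {x : E | x ∈ (OpenPartialHomeomorph.refl E).target ∧
        (OpenPartialHomeomorph.refl E).symm x ∈ (OpenPartialHomeomorph.refl E).source} =
        Set.univ := by
      ext x; simp
    rw [this]
    exact hid k
  continuous_mul' := continuousOn_univ.mp (hmul 0)
  continuous_inv' := continuousOn_univ.mp (hinv 0)
  smooth_mul := by
    rintro e₁ h₁ e₂ h₂ e₃ h₃ k
    rw [chartedSpaceSelf_atlas] at h₁ h₂ h₃
    subst h₁; subst h₂; subst h₃
    have : {p : E × E | p.1 ∈ (OpenPartialHomeomorph.refl E).target ∧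
        p.2 ∈ (OpenPartialHomeomorph.refl E).target ∧
        grp.mul ((OpenPartialHomeomorph.refl E).symm p.1)
          ((OpenPartialHomeomorph.refl E).symm p.2) ∈ (OpenPartialHomeomorph.refl E).source} =
        Set.univ := by
      ext x; simp
    exact this ▸ hmul k
  smooth_inv := by
    rintro e he e' he' k
    rw [chartedSpaceSelf_atlas] at he he'
    subst he; subst he'
    have : {x : E | x ∈ (OpenPartialHomeomorph.refl E).target ∧
        grp.inv ((OpenPartialHomeomorph.refl E).symm x) ∈
          (OpenPartialHomeomorph.refl E).source} = Set.univ := by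
      ext x; simp
    exact this ▸ hinv k

/-! ### The additive group of the real numbers -/

theorem ckOn_of_contDiffOn {F : Type v} [NormedAddCommGroup F] [NormedSpace ℝ F] (k : ℕ) :
    ∀ {E : Type u} [NormedAddCommGroup E] [NormedSpace ℝ E] {f : E → F} {U : Set E},
      IsOpen U → ContDiffOn ℝ ∞ f U → CkOn F k E f U := by
  induction k with
  | zero => intro E _ _ f U _ hf; exact hf.continuousOn
  | succ k ih =>
    intro E _ _ f U hU hf
    refine ⟨hf.continuousOn, fun p => fderiv ℝ f p.1 p.2, ?_, ?_⟩
    · intro x hx v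
      have hd : DifferentiableAt ℝ f x :=
        (hf.differentiableOn (by simp)).differentiableAt (hU.mem_nhds hx)
      exact (hd.hasFDerivAt.hasLineDerivAt v).tendsto_slope_zero
    · refine ih (hU.prod isOpen_univ) ?_
      have h1 : ContDiffOn ℝ ∞ (fderiv ℝ f) U := hf.fderiv_of_isOpen hU (by simp)
      have h2 : ContDiffOn ℝ ∞ (fun p : E × E => fderiv ℝ f p.1) (U ×ˢ Set.univ) :=
        h1.comp contDiffOn_fst (fun p hp => hp.1)
      exact h2.clm_apply contDiffOn_snd

/-- The additive group of the real numbers (written multiplicatively) as a Lie group, with the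
identity as its only chart. -/
def realLie : LieGrp :=
  ofGlobal ℝ (inferInstanceAs (Group (Multiplicative ℝ)))
    (fun k => ckOn_of_contDiffOn k isOpen_univ contDiff_id.contDiffOn)
    (fun k => ckOn_of_contDiffOn k isOpen_univ (contDiff_fst.add contDiff_snd).contDiffOn)
    (fun k => ckOn_of_contDiffOn k isOpen_univ contDiff_neg.contDiffOn)

/-! ### The Fréchet–Lie group `H` -/

open Pool.Agent.H87.SubExp

/-- Coordinatewise maps given by a function of temperate growth are smooth. -/
theorem ckOn_nem (k : ℕ) :
    ∀ {D : Type} [AddCommGroup D] [Module ℝ D] [TopologicalSpace D] [IsTopologicalAddGroup D]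
      {V : Type} [NormedAddCommGroup V] [NormedSpace ℝ V] {c : D →ₗ[ℝ] (ℕ → V)} (_ : IsCrd D c)
      {h : V → ℝ} (_ : h.HasTemperateGrowth) {f : D → E} (_ : ∀ d n, crd (f d) n = h (c d n)),
      CkOn E k D f Set.univ := by
  induction k with
  | zero =>
    intro D _ _ _ _ V _ _ c hc h hh f hf
    exact (continuous_nem hc hh hf).continuousOn
  | succ k ih =>
    intro D _ _ _ _ V _ _ c hc h hh f hf
    obtain ⟨df, hdf⟩ := exists_nem hc.prod (temperate_dsym hh)
    refine ⟨(continuous_nem hc hh hf).continuousOn, df, fun x _ v => ?_, ?_⟩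
    · exact tendsto_nem hc hh hf (fun x v n => hdf (x, v) n) x v
    · rw [Set.univ_prod_univ]
      exact ih hc.prod (temperate_dsym hh) hdf

/-- The Fréchet–Lie group `H = (E, *)`, where `x * y = sinh (arsinh x + arsinh y)`
coordinatewise. -/
def seqLie : LieGrp :=
  ofGlobal E grpE
    (fun k => ckOn_nem k isCrd_crdL (h := fun s => s) Function.HasTemperateGrowth.id'
      (fun _ _ => rfl))
    (fun k => ckOn_nem k isCrd_crdL2 temperate_msym (fun q n => crd_opE q n))
    (fun k => ckOn_nem k isCrd_crdL (h := fun s => -s) Function.HasTemperateGrowth.id'.fun_neg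
      (fun x n => crd_neg x n))

/-- The homomorphism `x ↦ ∑_n arsinh (x_n) / (n+1)^3`. -/
def chiHom : seqLie.G →* realLie.G where
  toFun := fun x : E => (chi x : ℝ)
  map_one' := chi_zero
  map_mul' := fun x y : E => chi_opE x y

theorem not_isCk_chiHom : ¬ IsCk 1 seqLie realLie chiHom := by
  rintro ⟨-, h⟩
  have h1 := h (OpenPartialHomeomorph.refl E) (by exact rfl)
      (OpenPartialHomeomorph.refl ℝ) (by exact rfl)
  have hs : {x : E | x ∈ (OpenPartialHomeomorph.refl E).target ∧
      chiHom ((OpenPartialHomeomorph.refl E).symm x) ∈ (OpenPartialHomeomorph.refl ℝ).source} =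
      Set.univ := by
    ext x; exact ⟨fun _ => trivial, fun _ => ⟨trivial, trivial⟩⟩
  have h2 : CkOn ℝ 1 E (fun x : E => (chi x : ℝ))
      {x : E | x ∈ (OpenPartialHomeomorph.refl E).target ∧
      chiHom ((OpenPartialHomeomorph.refl E).symm x) ∈ (OpenPartialHomeomorph.refl ℝ).source} :=
    h1
  rw [hs] at h2
  obtain ⟨-, df, hdf, -⟩ := h2
  exact chi_not_diff _ (hdf 0 trivial vE)

/-- **A continuous homomorphism of Lie groups need not be smooth, even if the Lie groups are
modelled on Fréchet spaces.**  There are an abelian Fréchet–Lie group `H` and a continuous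
homomorphism `χ` from `H` to the Lie group `(ℝ, +)` which is not of class `C^1`. -/
theorem result : ∃ (H : LieGrp) (χ : H.G →* realLie.G),
    IsFrechetLie H ∧ (∀ x y : H.G, x * y = y * x) ∧ Continuous χ ∧ ¬ IsCk 1 H realLie χ := by
  refine ⟨seqLie, chiHom, ⟨metrizable_E, ?_⟩, fun x y : E => opE_comm x y, ?_, not_isCk_chiHom⟩
  · have h : IsTopologicalAddGroup.rightUniformSpace E = (inferInstance : UniformSpace E) :=
      IsUniformAddGroup.rightUniformSpace_eq
    change @CompleteSpace E (IsTopologicalAddGroup.rightUniformSpace E)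
    rw [h]
    exact (inferInstance : CompleteSpace E)
  · exact continuous_chi

end Pool.Agent.Results.MP_ed087a_al.FrechetNotSmooth
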