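import Pool.Agent.H87.IncSpace

/-!
# A continuous homomorphism of Lie groups that is not smooth

Lie groups are modelled on real Hausdorff locally convex spaces, which are not assumed to be
complete, and smoothness is taken in the sense of Bastiani.  We construct a Lie group `G`,
modelled on an incomplete normed space, and a continuous homomorphism from the additive group of
the real numbers to `G` which is not of class `C^1`.
-/

open Filter Topology Set
open scoped ContDiff

noncomputable section

namespace Pool.Agent.Results.MP_ed087a_al.NonSmoothHom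

universe u v

/-- `CkOn F k E f U`: the map `f : E → F` is of class `C^k` on the (open) set `U ⊆ E` in the sense
of Bastiani.  Class `C^0` means continuous on `U`; class `C^(k+1)` means that `f` is continuous on
`U`, that the directional derivatives `df(x,v) = lim_{t → 0} (f(x+tv) - f(x))/t` exist for all
`x ∈ U` and `v ∈ E`, and that `df` is of class `C^k` on `U × E`. -/
def CkOn (F : Type v) [AddCommGroup F] [Module ℝ F] [TopologicalSpace F] :
    ℕ → ∀ (E : Type u) [AddCommGroup E] [Module ℝ E] [TopologicalSpace E],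
      (E → F) → Set E → Prop
  | 0, _, _, _, _, f, U => ContinuousOn f U
  | k + 1, E, _, _, _, f, U => ContinuousOn f U ∧ ∃ df : E × E → F,
      (∀ x ∈ U, ∀ v : E,
        Tendsto (fun t : ℝ => t⁻¹ • (f (x + t • v) - f x)) (𝓝[≠] 0) (𝓝 (df (x, v)))) ∧
      CkOn F k (E × E) df (U ×ˢ Set.univ)

/-- A Lie group modelled on a real Hausdorff locally convex space `E`: a group `G` with a Hausdorff
topology and an atlas of charts onto open subsets of `E`, such that the transition maps are smooth,
and multiplication and inversion are continuous and smooth (in all charts). -/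
structure LieGrp : Type 1 where
  /-- the model space -/
  E : Type
  [addCommGroupE : AddCommGroup E]
  [moduleE : Module ℝ E]
  [topE : TopologicalSpace E]
  [topAddGroupE : IsTopologicalAddGroup E]
  [contSMulE : ContinuousSMul ℝ E]
  [locConvE : LocallyConvexSpace ℝ E]
  [t2E : T2Space E]
  /-- the underlying group -/
  G : Type
  [groupG : Group G]
  [topG : TopologicalSpace G]
  [t2G : T2Space G]
  [charts : ChartedSpace E G]
  smooth_transition : ∀ e ∈ atlas E G, ∀ e' ∈ atlas E G, ∀ k : ℕ,
    CkOn E k E (fun x => e' (e.symm x)) {x | x ∈ e.target ∧ e.symm x ∈ e'.source}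
  continuous_mul' : Continuous fun p : G × G => p.1 * p.2
  continuous_inv' : Continuous fun g : G => g⁻¹
  smooth_mul : ∀ e₁ ∈ atlas E G, ∀ e₂ ∈ atlas E G, ∀ e₃ ∈ atlas E G, ∀ k : ℕ,
    CkOn E k (E × E) (fun p => e₃ (e₁.symm p.1 * e₂.symm p.2))
      {p | p.1 ∈ e₁.target ∧ p.2 ∈ e₂.target ∧ e₁.symm p.1 * e₂.symm p.2 ∈ e₃.source}
  smooth_inv : ∀ e ∈ atlas E G, ∀ e' ∈ atlas E G, ∀ k : ℕ,
    CkOn E k E (fun x => e' (e.symm x)⁻¹) {x | x ∈ e.target ∧ (e.symm x)⁻¹ ∈ e'.source}

attribute [instance] LieGrp.addCommGroupE LieGrp.moduleE LieGrp.topE LieGrp.topAddGroupE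
  LieGrp.contSMulE LieGrp.locConvE LieGrp.t2E LieGrp.groupG LieGrp.topG LieGrp.t2G LieGrp.charts

/-- The map `α` between Lie groups is of class `C^k`: it is continuous, and of class `C^k` in all
charts. -/
def IsCk (k : ℕ) (H G : LieGrp) (α : H.G → G.G) : Prop :=
  Continuous α ∧ ∀ e ∈ atlas H.E H.G, ∀ e' ∈ atlas G.E G.G,
    CkOn G.E k H.E (fun x => e' (α (e.symm x))) {x | x ∈ e.target ∧ α (e.symm x) ∈ e'.source}

/-! ### Fréchet smooth maps between normed spaces are smooth in the sense of Bastiani -/

theorem ckOn_of_contDiffOn {F : Type v} [NormedAddCommGroup F] [NormedSpace ℝ F] (k : ℕ) :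
    ∀ {E : Type u} [NormedAddCommGroup E] [NormedSpace ℝ E] {f : E → F} {U : Set E},
      IsOpen U → ContDiffOn ℝ ∞ f U → CkOn F k E f U := by
  induction k with
  | zero => intro E _ _ f U _ hf; exact hf.continuousOn
  | succ k ih =>
    intro E _ _ f U hU hf
    refine ⟨hf.continuousOn, fun p => fderiv ℝ f p.1 p.2, ?_, ?_⟩
    · intro x hx v
      have hd : DifferentiableAt ℝ f x :=
        (hf.differentiableOn (by simp)).differentiableAt (hU.mem_nhds hx)
      exact (hd.hasFDerivAt.hasLineDerivAt v).tendsto_slope_zero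
    · refine ih (hU.prod isOpen_univ) ?_
      have h1 : ContDiffOn ℝ ∞ (fderiv ℝ f) U := hf.fderiv_of_isOpen hU (by simp)
      have h2 : ContDiffOn ℝ ∞ (fun p : E × E => fderiv ℝ f p.1) (U ×ˢ Set.univ) :=
        h1.comp contDiffOn_fst (fun p hp => hp.1)
      exact h2.clm_apply contDiffOn_snd

/-- A Lie group with a single global chart, modelled on a normed space. -/
@[reducible] def ofNormed (E : Type) [NormedAddCommGroup E] [NormedSpace ℝ E] (grp : Group E)
    (hmul : ContDiff ℝ ∞ fun p : E × E => grp.mul p.1 p.2) (hinv : ContDiff ℝ ∞ grp.inv) :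
    LieGrp where
  E := E
  G := E
  groupG := grp
  charts := chartedSpaceSelf E
  smooth_transition := by
    rintro e he e' he' k
    rw [chartedSpaceSelf_atlas] at he he'
    subst he; subst he'
    have : {x : E | x ∈ (OpenPartialHomeomorph.refl E).target ∧
        (OpenPartialHomeomorph.refl E).symm x ∈ (OpenPartialHomeomorph.refl E).source} =
        Set.univ := by
      ext x; simp
    rw [this]
    exact ckOn_of_contDiffOn k isOpen_univ contDiff_id.contDiffOn
  continuous_mul' := hmul.continuous
  continuous_inv' := hinv.continuous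
  smooth_mul := by
    rintro e₁ h₁ e₂ h₂ e₃ h₃ k
    rw [chartedSpaceSelf_atlas] at h₁ h₂ h₃
    subst h₁; subst h₂; subst h₃
    have : {p : E × E | p.1 ∈ (OpenPartialHomeomorph.refl E).target ∧
        p.2 ∈ (OpenPartialHomeomorph.refl E).target ∧
        grp.mul ((OpenPartialHomeomorph.refl E).symm p.1)
          ((OpenPartialHomeomorph.refl E).symm p.2) ∈ (OpenPartialHomeomorph.refl E).source} =
        Set.univ := by
      ext x; simp
    exact this ▸ ckOn_of_contDiffOn k isOpen_univ hmul.contDiffOn
  smooth_inv := by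
    rintro e he e' he' k
    rw [chartedSpaceSelf_atlas] at he he'
    subst he; subst he'
    have : {x : E | x ∈ (OpenPartialHomeomorph.refl E).target ∧
        grp.inv ((OpenPartialHomeomorph.refl E).symm x) ∈
          (OpenPartialHomeomorph.refl E).source} = Set.univ := by
      ext x; simp
    exact this ▸ ckOn_of_contDiffOn k isOpen_univ hinv.contDiffOn

/-- The additive group of the real numbers (written multiplicatively) as a Lie group. -/
def realLie : LieGrp :=
  ofNormed ℝ (inferInstanceAs (Group (Multiplicative ℝ))) (contDiff_fst.add contDiff_snd)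
    contDiff_neg

/-! ### The group `V ⋊ ℝ` -/

open Pool.Agent.H87.IncSpace

/-- The group structure on `V × ℝ`: `(f, s) (g, t) = (f + Φ(s) g, s + t)`. -/
@[reducible] def semiGroup : Group (V × ℝ) where
  mul p q := (p.1 + Phi p.2 q.1, p.2 + q.2)
  one := (0, 0)
  inv p := (-(Phi (-p.2) p.1), -p.2)
  mul_assoc p q r := by
    change ((p.1 + Phi p.2 q.1) + Phi (p.2 + q.2) r.1, (p.2 + q.2) + r.2) =
      (p.1 + Phi p.2 (q.1 + Phi q.2 r.1), p.2 + (q.2 + r.2))
    rw [Phi_add, map_add, add_assoc, add_assoc]
  one_mul p := by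
    change (0 + Phi 0 p.1, 0 + p.2) = p
    rw [Phi_zero, zero_add, zero_add]
  mul_one p := by
    change (p.1 + Phi p.2 0, p.2 + 0) = p
    rw [map_zero, add_zero, add_zero]
  inv_mul_cancel p := by
    change (-(Phi (-p.2) p.1) + Phi (-p.2) p.1, -p.2 + p.2) = (0, 0)
    rw [neg_add_cancel, neg_add_cancel]

/-- The Lie group `V ⋊ ℝ`, modelled on the normed space `V × ℝ`. -/
def semiLie : LieGrp :=
  ofNormed (V × ℝ) semiGroup
    (by
      have h1 : ContDiff ℝ ∞ fun p : (V × ℝ) × (V × ℝ) => Phi p.1.2 p.2.1 :=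
        (contDiff_Phi.comp (contDiff_snd.comp contDiff_fst)).clm_apply
          (contDiff_fst.comp contDiff_snd)
      exact ((contDiff_fst.comp contDiff_fst).add h1).prodMk
        ((contDiff_snd.comp contDiff_fst).add (contDiff_snd.comp contDiff_snd)))
    (by
      have h1 : ContDiff ℝ ∞ fun p : V × ℝ => Phi (-p.2) p.1 :=
        (contDiff_Phi.comp (contDiff_neg.comp contDiff_snd)).clm_apply contDiff_fst
      exact h1.neg.prodMk (contDiff_neg.comp contDiff_snd))

/-- The homomorphism `t ↦ (c(t), t)`. -/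
def hom : realLie.G →* semiLie.G where
  toFun := fun t : ℝ => ((cV t, t) : V × ℝ)
  map_one' := by
    change ((cV 0, 0) : V × ℝ) = (0, 0)
    rw [cV_zero]
  map_mul' := fun s t : ℝ => by
    change ((cV (s + t), s + t) : V × ℝ) = (cV s + Phi s (cV t), s + t)
    rw [cV_add]

theorem not_ck_curve : ¬ CkOn (V × ℝ) 1 ℝ (fun t : ℝ => ((cV t, t) : V × ℝ)) Set.univ := by
  rintro ⟨-, df, hdf, -⟩
  have h2 := (continuous_fst.tendsto (df (0, 1))).comp (hdf 0 trivial 1)
  refine cV_not_diff (df (0, 1)).1 (h2.congr (fun t => ?_))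
  simp

theorem not_isCk_hom : ¬ IsCk 1 realLie semiLie hom := by
  rintro ⟨-, h⟩
  have h1 := h (OpenPartialHomeomorph.refl ℝ) (by exact rfl)
      (OpenPartialHomeomorph.refl (V × ℝ)) (by exact rfl)
  have hs : {x : ℝ | x ∈ (OpenPartialHomeomorph.refl ℝ).target ∧
      hom ((OpenPartialHomeomorph.refl ℝ).symm x) ∈ (OpenPartialHomeomorph.refl (V × ℝ)).source} =
      Set.univ := by
    ext x; exact ⟨fun _ => trivial, fun _ => ⟨trivial, trivial⟩⟩
  have h2 : CkOn (V × ℝ) 1 ℝ (fun t : ℝ => ((cV t, t) : V × ℝ))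
      {x : ℝ | x ∈ (OpenPartialHomeomorph.refl ℝ).target ∧
      hom ((OpenPartialHomeomorph.refl ℝ).symm x) ∈ (OpenPartialHomeomorph.refl (V × ℝ)).source} :=
    h1
  rw [hs] at h2
  exact not_ck_curve h2

/-- **A continuous homomorphism of Lie groups need not be smooth.**  There is a Lie group `G`,
modelled on a normable space, and a continuous homomorphism `α` from the Lie group `(ℝ, +)` to `G`
which is not of class `C^1`. -/
theorem result : ∃ (G : LieGrp) (α : realLie.G →* G.G),
    (∃ (W : Type) (_ : NormedAddCommGroup W) (_ : NormedSpace ℝ W), Nonempty (G.E ≃L[ℝ] W)) ∧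
    Continuous α ∧ ¬ IsCk 1 realLie G α := by
  refine ⟨semiLie, hom, ⟨V × ℝ, inferInstance, inferInstance,
    ⟨ContinuousLinearEquiv.refl ℝ (V × ℝ)⟩⟩, ?_, not_isCk_hom⟩
  exact (continuous_cV.prodMk continuous_id : Continuous fun t : ℝ => ((cV t, t) : V × ℝ))

end Pool.Agent.Results.MP_ed087a_al.NonSmoothHom
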